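import Mathlib
import Pool.Agent.R528.RM.BHOut
import Pool.Agent.N860.HL.Ana

set_option autoImplicit false

/-! # The local factors of `2 k n + 1` -/

open Filter Set Polynomial
open scoped Topology

namespace Pool.Agent.N860.LP

open Pool.Agent.R528.RM Pool.Agent.N860.HL

/-- the polynomial `2 n X + 1` -/
noncomputable def Lp (n : ℕ) : Finset ℤ[X] := {C (2 * (n : ℤ)) * X + C 1}

lemma Lp_card (n : ℕ) : (Lp n).card = 1 := Finset.card_singleton _

lemma Lp_eval (n : ℕ) (k : ℤ) : (C (2 * (n : ℤ)) * X + C 1 : ℤ[X]).eval k = 2 * n * k + 1 := by simp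

lemma good_iff (n W k : ℕ) : good (Lp n) W k ↔ Nat.Coprime (2 * k * n + 1) W := by
  unfold good Lp
  simp only [Finset.mem_singleton, forall_eq, Lp_eval]
  have : (2 * (n : ℤ) * k + 1) = ((2 * k * n + 1 : ℕ) : ℤ) := by push_cast; ring
  rw [this, Int.gcd_natCast_natCast]

lemma omega_eq (n p : ℕ) : omegaF (Lp n) p = {r : ℕ | r < p ∧ (p : ℤ) ∣ 2 * (n : ℤ) * r + 1}.ncard := by
  unfold omegaF Lp
  simp only [Finset.prod_singleton, Lp_eval]

lemma omega_dvd (n p : ℕ) (hp : p.Prime) (h : p ∣ 2 * n) : omegaF (Lp n) p = 0 := by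
  rw [omega_eq, Set.ncard_eq_zero ((Set.finite_lt_nat p).subset fun r hr => hr.1)]
  ext r
  simp only [Set.mem_ofPred_eq, Set.mem_empty_iff_false, iff_false, not_and]
  intro _ hdvd
  have h1 : (p : ℤ) ∣ 2 * (n : ℤ) * r := by
    have : (p : ℤ) ∣ 2 * (n : ℤ) := by exact_mod_cast h
    exact this.mul_right _
  have h2 : (p : ℤ) ∣ 1 := (Int.dvd_add_right h1).1 hdvd
  have h3 : p ∣ 1 := by exact_mod_cast h2
  exact hp.one_lt.ne' (Nat.dvd_one.1 h3)

lemma omega_not_dvd (n p : ℕ) (hp : p.Prime) (h : ¬ p ∣ 2 * n) : omegaF (Lp n) p = 1 := by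
  have : Fact p.Prime := ⟨hp⟩
  have h0 : ((2 * n : ℕ) : ZMod p) ≠ 0 := by
    rw [Ne, ZMod.natCast_eq_zero_iff]
    exact h
  push_cast at h0
  rw [omega_eq, Set.ncard_eq_one]
  refine ⟨(-(2 * (n : ZMod p))⁻¹ : ZMod p).val, ?_⟩
  ext r
  simp only [Set.mem_ofPred_eq, Set.mem_singleton_iff]
  constructor
  · rintro ⟨h1, h2⟩
    have h3 : (2 * (n : ZMod p)) * r + 1 = 0 := by
      have h4 : ((2 * (n : ℤ) * r + 1 : ℤ) : ZMod p) = 0 := (ZMod.intCast_zmod_eq_zero_iff_dvd _ _).2 h2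
      push_cast at h4
      exact h4
    have h5 : (r : ZMod p) = -(2 * (n : ZMod p))⁻¹ := by
      have h6 : (r : ZMod p) = (2 * (n : ZMod p))⁻¹ * (2 * (n : ZMod p) * r) := by
        rw [inv_mul_cancel_left₀ h0]
      have h7 : 2 * (n : ZMod p) * r = -1 := by linear_combination h3
      rw [h6, h7]
      ring
    rw [← h5, ZMod.val_natCast, Nat.mod_eq_of_lt h1]
  · rintro rfl
    refine ⟨ZMod.val_lt _, ?_⟩
    rw [← ZMod.intCast_zmod_eq_zero_iff_dvd]
    push_cast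
    rw [ZMod.natCast_zmod_val, mul_neg, mul_inv_cancel₀ h0]
    ring

/-- the local factor -/
noncomputable def G (Q : Finset ℕ) (n : ℕ) : ℝ := ∏ p ∈ Q, (if p ∣ 2 * n then (1 - 1 / (p : ℝ))⁻¹ else 1)

lemma G_eq (Q : Finset ℕ) (hQ : ∀ p ∈ Q, p.Prime) (n : ℕ) :
    ((Nat.count (good (Lp n) (∏ p ∈ Q, p)) (∏ p ∈ Q, p) : ℝ) / ((∏ p ∈ Q, p : ℕ) : ℝ)) *
      (((∏ p ∈ Q, p : ℕ) : ℝ) / Nat.totient (∏ p ∈ Q, p)) = G Q n := by
  classical
  have h1 := const_prod (Lp n) Q hQ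
  rw [Lp_card, pow_one] at h1
  rw [h1]
  simp only [pow_one]
  unfold G
  refine Finset.prod_congr rfl fun p hp => ?_
  have hpp := hQ p hp
  have h3 := omega_good (Lp n) hpp
  have h6 : (Nat.count (good (Lp n) p) p : ℝ) + omegaF (Lp n) p = p := by exact_mod_cast h3
  have h8 : (1 : ℝ) < p := by exact_mod_cast hpp.one_lt
  have h9 : (p : ℝ) - 1 ≠ 0 := by linarith
  have h10 : (p : ℝ) ≠ 0 := by linarith
  by_cases h : p ∣ 2 * n
  · rw [omega_dvd n p hpp h] at h6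
    rw [if_pos h]
    have h11 : (Nat.count (good (Lp n) p) p : ℝ) = p := by
      push_cast at h6
      linarith
    rw [h11, div_self h10, one_mul]
  · rw [omega_not_dvd n p hpp h] at h6
    rw [if_neg h]
    have h11 : (Nat.count (good (Lp n) p) p : ℝ) = p - 1 := by
      push_cast at h6
      linarith
    rw [h11, one_sub_div h10, inv_div]
    field_simp

lemma G_bounds (Q : Finset ℕ) (hQ : ∀ p ∈ Q, p.Prime) (n : ℕ) :
    1 ≤ G Q n ∧ G Q n ≤ ∏ p ∈ Q, (1 - 1 / (p : ℝ))⁻¹ := by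
  have h1 : ∀ p ∈ Q, (1 : ℝ) ≤ (1 - 1 / (p : ℝ))⁻¹ := by
    intro p hp
    have h8 : (1 : ℝ) < p := by exact_mod_cast (hQ p hp).one_lt
    have h9 : 0 < 1 - 1 / (p : ℝ) := by
      rw [sub_pos, div_lt_one (by linarith)]
      exact h8
    rw [one_le_inv₀ h9]
    have : 0 < 1 / (p : ℝ) := by positivity
    linarith
  constructor
  · unfold G
    calc (1 : ℝ) = ∏ _p ∈ Q, (1 : ℝ) := by simp
      _ ≤ _ := Finset.prod_le_prod (fun _ _ => zero_le_one) fun p hp => by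
        split_ifs
        · exact h1 p hp
        · exact le_rfl
  · unfold G
    refine Finset.prod_le_prod (fun p hp => ?_) fun p hp => ?_
    · split_ifs
      · exact le_trans zero_le_one (h1 p hp)
      · exact zero_le_one
    · split_ifs
      · exact le_rfl
      · exact h1 p hp

end Pool.Agent.N860.LP
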