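import Mathlib
import Pool.Agent.N860.LP.Const
import Pool.Agent.N909.TF.Tools

set_option autoImplicit false

/-! # Expected number of chosen values `2 k n + 1` -/

open MeasureTheory Filter Set Polynomial
open scoped Topology

namespace Pool.Agent.N860.LP

open Pool.Agent.R528.RM Pool.Agent.N909.TF Pool.Agent.N860.HL

/-- the `k ≤ K` which are not multiples of `n` -/
def adm (n K : ℕ) : Finset ℕ := (Finset.Ioc 0 K).filter (fun k => ¬ n ∣ k)

/-- the main term -/
noncomputable def Mt (Q : Finset ℕ) (n K : ℕ) : ℝ :=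
  G Q n * ∑ k ∈ Finset.Ioc 0 K, 1 / Real.log ((2 * k * n + 1 : ℕ) : ℝ)

lemma card_mult (n K : ℕ) : (((Finset.Ioc 0 K).filter (fun k => n ∣ k)).card : ℝ) ≤ K / n := by
  rw [Nat.Ioc_filter_dvd_card_eq_div]
  exact Nat.cast_div_le

lemma log_val_ge {n k : ℕ} (hk : 0 < k) (hn : 0 < n) : Real.log ((2 * n + 1 : ℕ) : ℝ) ≤ Real.log ((2 * k * n + 1 : ℕ) : ℝ) := by
  apply Real.log_le_log (by positivity)
  have : 2 * n + 1 ≤ 2 * k * n + 1 := by nlinarith
  exact_mod_cast this

/-- the expected number against the main term -/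
lemma exp_main (Q : Finset ℕ) (hQ : ∀ p ∈ Q, p.Prime) (n K : ℕ) (hn : 0 < n)
    (hc : (((∏ p ∈ Q, p : ℕ) : ℝ) / Nat.totient (∏ p ∈ Q, p)) ≤ Real.log ((2 * n + 1 : ℕ) : ℝ)) :
    |∑ k ∈ adm n K, rhoW (∏ p ∈ Q, p) (2 * k * n + 1) - Mt Q n K| ≤ ((∏ p ∈ Q, p : ℕ) : ℝ) + 1 + K / n := by
  classical
  set W := ∏ p ∈ Q, p with hWdef
  have hW : 0 < W := Finset.prod_pos fun q hq => (hQ q hq).pos
  have hc1 := cQ_ge W hW
  set c : ℝ := (W : ℝ) / Nat.totient W with hcdef
  have hW' : (0 : ℝ) < W := by exact_mod_cast hW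
  have hl1 : 0 < Real.log ((2 * n + 1 : ℕ) : ℝ) := by linarith
  set g : ℕ → ℝ := fun i => c / Real.log ((2 * (i + 1) * n + 1 : ℕ) : ℝ) with hg
  have hlg : ∀ i : ℕ, Real.log ((2 * n + 1 : ℕ) : ℝ) ≤ Real.log ((2 * (i + 1) * n + 1 : ℕ) : ℝ) :=
    fun i => log_val_ge (Nat.succ_pos i) hn
  set δ : ℝ := (Nat.count (good (Lp n) W) W : ℝ) / W with hδ
  have hδ0 : 0 ≤ δ := by positivity
  have hδ1 : δ ≤ 1 := by
    rw [hδ, div_le_one hW']
    exact_mod_cast Nat.count_le (good (Lp n) W)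
  have h1 : |∑ i ∈ Finset.range K, ((if good (Lp n) W (i + 1) then (1:ℝ) else 0) - δ) * g i| ≤ (W + 1) * g 0 := by
    apply abel_bound
    · intro i
      apply div_le_div_of_nonneg_left (by linarith) (lt_of_lt_of_le hl1 (hlg i))
      apply Real.log_le_log (by positivity)
      have : 2 * (i + 1) * n + 1 ≤ 2 * (i + 1 + 1) * n + 1 := by nlinarith
      exact_mod_cast this
    · intro i
      exact div_nonneg (by linarith) (hl1.le.trans (hlg i))
    · intro k
      have h2 := count_bound (good (Lp n) W) W hW (good_periodic (Lp n) W) (k + 1)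
      rw [← hδ] at h2
      have h3 : ∑ i ∈ Finset.range k, ((if good (Lp n) W (i + 1) then (1:ℝ) else 0) - δ) =
          ((Nat.count (good (Lp n) W) (k + 1) : ℝ) - ((k + 1 : ℕ) : ℝ) * δ) +
            (δ - (if good (Lp n) W 0 then (1:ℝ) else 0)) := by
        rw [Nat.count_eq_card_filter_range, ← Finset.sum_boole, Finset.sum_range_succ', Finset.sum_sub_distrib,
          Finset.sum_const, Finset.card_range, nsmul_eq_mul]
        push_cast
        ring
      rw [h3]
      refine (abs_add_le _ _).trans (add_le_add h2 ?_)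
      rw [abs_le]
      split_ifs <;> constructor <;> linarith
  have hg0 : g 0 ≤ 1 := by
    have : g 0 = c / Real.log ((2 * n + 1 : ℕ) : ℝ) := by
      simp [hg]
    rw [this, div_le_one hl1]
    exact hc
  have h2 : ∀ f : ℕ → ℝ, ∑ k ∈ Finset.Ioc 0 K, f k = ∑ i ∈ Finset.range K, f (i + 1) := by
    intro f
    rw [← Finset.sum_image (f := f) (g := fun i => i + 1) (s := Finset.range K) (by intro a _ b _ h; simpa using h)]
    congr 1
    ext k
    simp only [Finset.mem_Ioc, Finset.mem_image, Finset.mem_range]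
    constructor
    · rintro ⟨h1, h2⟩
      exact ⟨k - 1, by omega, by omega⟩
    · rintro ⟨i, hi, rfl⟩
      omega
  -- the profile
  have hrho : ∀ k ∈ Finset.Ioc 0 K, rhoW W (2 * k * n + 1) =
      if good (Lp n) W k then c / Real.log ((2 * k * n + 1 : ℕ) : ℝ) else 0 := by
    intro k hk
    have hk0 : 0 < k := (Finset.mem_Ioc.1 hk).1
    have hl := log_val_ge hk0 hn
    unfold rhoW
    by_cases hgd : good (Lp n) W k
    · rw [if_pos ((good_iff n W k).1 hgd), if_pos hgd]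
      apply min_eq_right
      rw [div_le_one (by linarith)]
      linarith
    · rw [if_neg (fun h => hgd ((good_iff n W k).2 h)), if_neg hgd]
  have h3 : ∑ k ∈ Finset.Ioc 0 K, rhoW W (2 * k * n + 1) - Mt Q n K =
      ∑ i ∈ Finset.range K, ((if good (Lp n) W (i + 1) then (1:ℝ) else 0) - δ) * g i := by
    have hG := G_eq Q hQ n
    rw [← hWdef, ← hcdef, ← hδ] at hG
    rw [Finset.sum_congr rfl hrho, h2]
    unfold Mt
    rw [← hG, h2, Finset.mul_sum, ← Finset.sum_sub_distrib]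
    refine Finset.sum_congr rfl fun i _ => ?_
    simp only [hg]
    split_ifs <;> ring
  have h4 : ∑ k ∈ Finset.Ioc 0 K, rhoW W (2 * k * n + 1) =
      ∑ k ∈ adm n K, rhoW W (2 * k * n + 1) + ∑ k ∈ (Finset.Ioc 0 K).filter (fun k => n ∣ k), rhoW W (2 * k * n + 1) := by
    unfold adm
    rw [add_comm, Finset.sum_filter_add_sum_filter_not]
  have h5 : ∑ k ∈ (Finset.Ioc 0 K).filter (fun k => n ∣ k), rhoW W (2 * k * n + 1) ≤ K / n := by
    refine (Finset.sum_le_card_nsmul _ _ 1 fun k _ => rhoW_le W _).trans ?_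
    rw [nsmul_eq_mul, mul_one]
    exact card_mult n K
  have h6 : 0 ≤ ∑ k ∈ (Finset.Ioc 0 K).filter (fun k => n ∣ k), rhoW W (2 * k * n + 1) :=
    Finset.sum_nonneg fun k _ => rhoW_nonneg W _
  have h7 : (W + 1) * g 0 ≤ (W + 1 : ℝ) := mul_le_of_le_one_right (by positivity) hg0
  rw [← h3, h4] at h1
  have h8 := abs_le.1 (h1.trans h7)
  rw [abs_le]
  constructor <;> linarith

lemma Mt_ge (Q : Finset ℕ) (hQ : ∀ p ∈ Q, p.Prime) (n K : ℕ) (hn : 0 < n) :
    G Q n * (K / Real.log ((2 * K * n + 1 : ℕ) : ℝ)) ≤ Mt Q n K := by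
  have hG := (G_bounds Q hQ n).1
  unfold Mt
  apply mul_le_mul_of_nonneg_left _ (by linarith)
  have h1 : ∀ k ∈ Finset.Ioc 0 K, 1 / Real.log ((2 * K * n + 1 : ℕ) : ℝ) ≤ 1 / Real.log ((2 * k * n + 1 : ℕ) : ℝ) := by
    intro k hk
    rw [Finset.mem_Ioc] at hk
    have h2 : (1 : ℝ) < ((2 * k * n + 1 : ℕ) : ℝ) := by
      have : 1 < 2 * k * n + 1 := by
        have := Nat.mul_pos (Nat.mul_pos two_pos hk.1) hn
        omega
      exact_mod_cast this
    apply one_div_le_one_div_of_le (Real.log_pos h2)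
    apply Real.log_le_log (by linarith)
    have : 2 * k * n + 1 ≤ 2 * K * n + 1 := by
      have := Nat.mul_le_mul_right n (Nat.mul_le_mul_left 2 hk.2)
      omega
    exact_mod_cast this
  have h2 := Finset.card_nsmul_le_sum (Finset.Ioc 0 K) _ _ h1
  rw [Nat.card_Ioc, Nat.sub_zero, nsmul_eq_mul, mul_one_div] at h2
  exact h2

end Pool.Agent.N860.LP
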