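import Mathlib
import Pool.Agent.N860.LP.Exp

set_option autoImplicit false
set_option linter.unusedSectionVars false

/-! # The law for the values `2 k n + 1`, uniformly in the length, and the sharp constant -/

open MeasureTheory Filter Set Polynomial
open scoped Topology

namespace Pool.Agent.N860.LP

open Pool.Agent.R528.RM Pool.Agent.N909.TF Pool.Agent.N860.HL

variable {Ω : Type} {m0 : MeasurableSpace Ω} {μ : Measure Ω} [IsProbabilityMeasure μ]
  {ℱ : Filtration ℕ m0} {S : ℕ → Set Ω}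

open Classical in
/-- the weights of the family of the values -/
noncomputable def wt (n K j : ℕ) (_ : Ω) : ℝ := if ∃ k ∈ adm n K, 2 * k * n = j then 1 else 0

lemma wt_meas (n K j : ℕ) : StronglyMeasurable[ℱ j] (wt (Ω := Ω) n K j) := by
  unfold wt
  exact @stronglyMeasurable_const _ _ (ℱ j) _ _

lemma wt_01 (n K j : ℕ) (ω : Ω) : 0 ≤ wt n K j ω ∧ wt n K j ω ≤ 1 := by
  unfold wt
  split_ifs <;> norm_num

lemma sum_wt (n K : ℕ) (hn : 0 < n) (X : ℕ → ℝ) (ω : Ω) :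
    ∑ j ∈ Finset.range (2 * K * n + 1), wt n K j ω * X j = ∑ k ∈ adm n K, X (2 * k * n) := by
  classical
  unfold wt
  simp only [ite_mul, one_mul, zero_mul]
  rw [← Finset.sum_filter]
  symm
  refine Finset.sum_nbij (fun k => 2 * k * n) ?_ ?_ ?_ ?_
  · intro k hk
    rw [Finset.mem_filter, Finset.mem_range]
    refine ⟨?_, k, hk, rfl⟩
    have h1 := (Finset.mem_Ioc.1 (Finset.mem_filter.1 hk).1).2
    have := Nat.mul_le_mul_right n (Nat.mul_le_mul_left 2 h1)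
    omega
  · intro a _ b _ hab
    simp only at hab
    have := Nat.eq_of_mul_eq_mul_right hn hab
    omega
  · intro j hj
    rw [Finset.mem_coe, Finset.mem_filter] at hj
    obtain ⟨_, k, hk, rfl⟩ := hj
    exact ⟨k, hk, rfl⟩
  · intro k _
    rfl

open Classical in
/-- the number of the chosen values -/
noncomputable def Rn (S : ℕ → Set Ω) (n K : ℕ) (ω : Ω) : ℝ :=
  (((adm n K).filter (fun k => ω ∈ S (2 * k * n + 1))).card : ℝ)

lemma SI_eq (n K : ℕ) (hn : 0 < n) (ω : Ω) : SI S (wt n K) (2 * K * n + 1) ω = Rn S n K ω := by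
  classical
  unfold SI Rn
  rw [sum_wt n K hn (fun j => (S (j + 1)).indicator (fun _ => (1 : ℝ)) ω) ω, Finset.card_filter]
  push_cast
  refine Finset.sum_congr rfl fun k _ => ?_
  by_cases h : ω ∈ S (2 * k * n + 1)
  · rw [indicator_of_mem h, if_pos h]
  · rw [indicator_of_notMem h, if_neg h]

lemma SD_eq (n K : ℕ) (hn : 0 < n) (ω : Ω) :
    SD μ ℱ S (wt n K) (2 * K * n + 1) ω = ∑ k ∈ adm n K, dens μ ℱ S (2 * k * n) ω := by
  unfold SD
  exact sum_wt n K hn (fun j => dens μ ℱ S j ω) ω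

/-- the expected number -/
noncomputable def En (W n K : ℕ) : ℝ := ∑ k ∈ adm n K, rhoW W (2 * k * n + 1)

lemma En_nonneg (W n K : ℕ) : 0 ≤ En W n K := Finset.sum_nonneg fun _ _ => rhoW_nonneg W _

lemma SD_near (W : ℕ) (ω : Ω) (η : ℝ) (N : ℕ)
    (hN : ∀ n ≥ N, |dens μ ℱ S n ω - rhoW W (n + 1)| ≤ η * rhoW W (n + 1)) (n K : ℕ) (hn : 0 < n) (hnN : N ≤ n) :
    |SD μ ℱ S (wt n K) (2 * K * n + 1) ω - En W n K| ≤ η * En W n K := by
  rw [SD_eq n K hn]
  unfold En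
  rw [← Finset.sum_sub_distrib, Finset.mul_sum]
  refine (Finset.abs_sum_le_sum_abs _ _).trans (Finset.sum_le_sum fun k hk => ?_)
  have h1 := (Finset.mem_Ioc.1 (Finset.mem_filter.1 hk).1).1
  apply hN
  have : n ≤ 2 * k * n := Nat.le_mul_of_pos_left n (by omega)
  omega

/-- the law, uniformly in the length -/
theorem core (hS : ∀ n, MeasurableSet[ℱ n] (S n)) (W : ℕ)
    (hd : ∀ᵐ ω ∂μ, ∀ ε : ℝ, 0 < ε → ∀ᶠ n : ℕ in atTop,
      |dens μ ℱ S n ω - rhoW W (n + 1)| ≤ ε * rhoW W (n + 1)) :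
    ∀ᵐ ω ∂μ, ∀ η : ℝ, 0 < η → ∃ C : ℝ, 0 ≤ C ∧ ∃ N : ℕ, ∀ n ≥ N, ∀ K : ℕ,
      |Rn S n K ω - En W n K| ≤ η * En W n K + C * Real.log (Nat.pair n K) := by
  have h1 := bc_law (μ := μ) hS (fun m j ω => wt m.unpair.1 m.unpair.2 j ω)
    (fun m => 2 * m.unpair.2 * m.unpair.1 + 1) (fun m j => wt_meas m.unpair.1 m.unpair.2 j)
    (fun m j ω => wt_01 m.unpair.1 m.unpair.2 j ω)
  filter_upwards [h1, hd] with ω hω hωd η hη
  set e : ℝ := min (η / 3) 1 with he
  have he0 : 0 < e := by rw [he]; positivity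
  have he1 : e ≤ 1 := min_le_right _ _
  have heη : 3 * e ≤ η := by
    have : e ≤ η / 3 := min_le_left _ _
    linarith
  obtain ⟨C, hC, hlaw⟩ := hω e he0
  obtain ⟨N₁, hN₁⟩ := eventually_atTop.1 hlaw
  obtain ⟨N₂, hN₂⟩ := eventually_atTop.1 (hωd e he0)
  refine ⟨C, hC, max (max N₁ N₂) 1, fun n hn K => ?_⟩
  have hn1 : N₁ ≤ n := (le_max_left _ _).trans ((le_max_left _ _).trans hn)
  have hn2 : N₂ ≤ n := (le_max_right _ _).trans ((le_max_left _ _).trans hn)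
  have hn0 : 0 < n := (le_max_right _ _).trans hn
  have g1 := hN₁ (Nat.pair n K) (hn1.trans (Nat.left_le_pair n K))
  simp only [Nat.unpair_pair] at g1
  have g2 := abs_le.1 (SD_near (μ := μ) (ℱ := ℱ) W ω e N₂ hN₂ n K hn0 hn2)
  rw [SI_eq n K hn0] at g1
  set D := SD μ ℱ S (wt n K) (2 * K * n + 1) ω
  set E := En W n K with hE
  have hE0 : 0 ≤ E := En_nonneg W n K
  have k1 : (1 + e) * D ≤ (1 + e) * ((1 + e) * E) := mul_le_mul_of_nonneg_left (by linarith) (by linarith)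
  have k2 : (1 - e) * ((1 - e) * E) ≤ (1 - e) * D := mul_le_mul_of_nonneg_left (by linarith) (by linarith)
  have k3 : e * (e * E) ≤ 1 * (e * E) := mul_le_mul_of_nonneg_right he1 (by positivity)
  have k4 : 3 * e * E ≤ η * E := mul_le_mul_of_nonneg_right heη hE0
  have k5 : 0 ≤ e * E := by positivity
  have k6 : 0 ≤ e * (e * E) := by positivity
  rw [abs_le]
  constructor <;> nlinarith [g1.1, g1.2]

lemma exp_neg_log (n : ℕ) (hn : 1 ≤ n) (x : ℝ) : Real.exp (-(x * Real.log n)) = 1 / (n : ℝ) ^ x := by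
  have hn0 : (0 : ℝ) < n := by exact_mod_cast hn
  rw [Real.exp_neg, Real.rpow_def_of_pos hn0, one_div, mul_comm]

/-- the sharp criterion for at least one chosen value -/
theorem sharp (hS : ∀ n, MeasurableSet[ℱ n] (S n)) (K : ℕ → ℕ) :
    ∀ᵐ ω ∂μ, ∀ ε : ℝ, 0 < ε → ∀ᶠ n : ℕ in atTop,
      (1 + ε) * Real.log n ≤ SD μ ℱ S (wt n (K n)) (2 * K n * n + 1) ω → 0 < Rn S n (K n) ω := by
  have h1 : ∀ᵐ ω ∂μ, ∀ i m : ℕ, ∀ᶠ n : ℕ in atTop,
      Ex μ ℱ S (-(m : ℝ)) (wt n (K n)) (2 * K n * n + 1) ω < (1 + 1 / (i + 1 : ℝ)) * Real.log n := by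
    refine ae_all_iff.2 fun i => ae_all_iff.2 fun m => ?_
    have hs : Summable (fun n : ℕ => 1 / (n : ℝ) ^ (1 + 1 / (i + 1 : ℝ))) := by
      rw [Real.summable_one_div_nat_rpow]
      have : 0 < 1 / (i + 1 : ℝ) := by positivity
      linarith
    have h2 := bc_real (μ := μ) (s := fun n : ℕ => {ω | (1 + 1 / (i + 1 : ℝ)) * Real.log n ≤
      Ex μ ℱ S (-(m : ℝ)) (wt n (K n)) (2 * K n * n + 1) ω}) hs (by
      filter_upwards [eventually_ge_atTop 1] with n hn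
      refine (Ex_tail (μ := μ) hS _ (wt n (K n)) (fun j => wt_meas n (K n) j) (fun j ω => wt_01 n (K n) j ω) _ _).trans
        (le_of_eq (exp_neg_log n hn _)))
    filter_upwards [h2] with ω hω
    filter_upwards [hω] with n hn
    exact not_le.1 hn
  filter_upwards [h1] with ω hω ε hε
  obtain ⟨i, hi⟩ := exists_nat_one_div_lt (show 0 < ε / 2 by positivity)
  obtain ⟨m, hm⟩ : ∃ m : ℕ, Real.exp (-(m : ℝ)) ≤ ε / 2 / (1 + ε) := by
    have h2 : Tendsto (fun m : ℕ => Real.exp (-(m : ℝ))) atTop (𝓝 0) :=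
      Real.tendsto_exp_neg_atTop_nhds_zero.comp tendsto_natCast_atTop_atTop
    exact (h2.eventually_le_const (show 0 < ε / 2 / (1 + ε) by positivity)).exists
  filter_upwards [hω i m, eventually_gt_atTop 1] with n g1 g2 g3
  have hL : 0 < Real.log n := Real.log_pos (by exact_mod_cast g2)
  by_contra hcon
  have h0 : Rn S n (K n) ω = 0 := by
    have : 0 ≤ Rn S n (K n) ω := Nat.cast_nonneg _
    linarith
  rw [Ex_eq, SI_eq n (K n) (by omega), h0] at g1
  set D := SD μ ℱ S (wt n (K n)) (2 * K n * n + 1) ω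
  have hx : Real.exp (-(m : ℝ)) * (1 + ε) ≤ ε / 2 := by
    rw [le_div_iff₀ (by linarith)] at hm
    exact hm
  have hx1 : Real.exp (-(m : ℝ)) ≤ 1 := Real.exp_le_one_iff.2 (by simp)
  have k1 : (1 - Real.exp (-(m : ℝ))) * ((1 + ε) * Real.log n) ≤ (1 - Real.exp (-(m : ℝ))) * D :=
    mul_le_mul_of_nonneg_left g3 (by linarith)
  have k2 : Real.exp (-(m : ℝ)) * (1 + ε) * Real.log n ≤ ε / 2 * Real.log n := mul_le_mul_of_nonneg_right hx hL.le
  have k3 : 1 / (i + 1 : ℝ) * Real.log n ≤ ε / 2 * Real.log n := mul_le_mul_of_nonneg_right hi.le hL.le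
  nlinarith

end Pool.Agent.N860.LP
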