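import Mathlib
import Pool.Agent.N860.LP.Law

set_option autoImplicit false
set_option linter.unusedSectionVars false

/-! # Final forms for the values `2 k n + 1` -/

open MeasureTheory Filter Set Polynomial
open scoped Topology

namespace Pool.Agent.N860.LP

open Pool.Agent.R528.RM Pool.Agent.N909.TF Pool.Agent.N860.HL

lemma log_pair (C n K : ℕ) (hn : 3 ≤ n) (hK : K ≤ n ^ C) :
    Real.log (Nat.pair n K) ≤ (2 * C + 4) * Real.log n := by
  have h3 := Nat.pair_lt_max_add_one_sq n K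
  have h4 : max n K + 1 ≤ n ^ (C + 2) := by
    have h5 : n ^ C ≤ n ^ (C + 1) := Nat.pow_le_pow_right (by omega) (by omega)
    have h6 : n ≤ n ^ (C + 1) := Nat.le_self_pow (by omega) n
    have h7 : max n K ≤ n ^ (C + 1) := max_le h6 (hK.trans h5)
    have h8 : n ^ (C + 1) + 1 ≤ n ^ (C + 1) * n := by
      have : 1 ≤ n ^ (C + 1) := Nat.one_le_pow _ _ (by omega)
      nlinarith
    calc max n K + 1 ≤ n ^ (C + 1) + 1 := by omega
      _ ≤ n ^ (C + 1) * n := h8
      _ = n ^ (C + 2) := by ring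
  have h5 : Nat.pair n K ≤ n ^ (2 * C + 4) := by
    have h6 := Nat.pow_le_pow_left h4 2
    have h7 : (n ^ (C + 2)) ^ 2 = n ^ (2 * C + 4) := by
      rw [← pow_mul]
      ring_nf
    omega
  have h0 : 0 < Nat.pair n K := lt_of_lt_of_le (by omega) (Nat.left_le_pair n K)
  have h6 : Real.log (Nat.pair n K) ≤ Real.log ((n : ℝ) ^ (2 * C + 4)) := by
    apply Real.log_le_log (by exact_mod_cast h0)
    exact_mod_cast h5
  rw [Real.log_pow] at h6
  push_cast at h6
  exact h6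

lemma log_val_le (C n K : ℕ) (hn : 3 ≤ n) (hK1 : 1 ≤ K) (hK : K ≤ n ^ C) :
    Real.log ((2 * K * n + 1 : ℕ) : ℝ) ≤ (C + 2) * Real.log n := by
  have h1 : 2 * K * n + 1 ≤ n ^ (C + 2) := by
    have h2 : n ^ (C + 2) = n ^ C * n * n := by ring
    rw [h2]
    have h3 : K * n ≤ n ^ C * n := Nat.mul_le_mul_right n hK
    have h4 : 3 * (n ^ C * n) ≤ n ^ C * n * n := by nlinarith [Nat.zero_le (n ^ C * n)]
    have h5 : 1 ≤ K * n := Nat.mul_pos hK1 (by omega)
    nlinarith
  have h6 : Real.log ((2 * K * n + 1 : ℕ) : ℝ) ≤ Real.log ((n : ℝ) ^ (C + 2)) := by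
    apply Real.log_le_log (by positivity)
    exact_mod_cast h1
  rw [Real.log_pow] at h6
  push_cast at h6 ⊢
  exact h6

variable {Ω : Type} {m0 : MeasurableSpace Ω} {μ : Measure Ω} [IsProbabilityMeasure μ]
  {ℱ : Filtration ℕ m0} {S : ℕ → Set Ω}

lemma log_big (B : ℝ) : ∀ᶠ n : ℕ in atTop, B ≤ Real.log n :=
  (Real.tendsto_log_atTop.comp tendsto_natCast_atTop_atTop).eventually_ge_atTop B

lemma log_small (B e : ℝ) (he : 0 < e) : ∀ᶠ n : ℕ in atTop, B * Real.log n ≤ e * n := by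
  have h := (isLittleO_log_rpow_atTop (r := 1) one_pos).bound (c := e / (|B| + 1)) (by positivity)
  have h2 := tendsto_natCast_atTop_atTop (R := ℝ) |>.eventually h
  filter_upwards [h2, eventually_ge_atTop 1] with n g1 g2
  rw [Real.rpow_one, Real.norm_of_nonneg (Real.log_natCast_nonneg n), Real.norm_of_nonneg (Nat.cast_nonneg n)] at g1
  have h3 : (|B| + 1) * Real.log n ≤ e * n := by
    have := mul_le_mul_of_nonneg_left g1 (show 0 ≤ |B| + 1 by positivity)
    refine this.trans (le_of_eq ?_)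
    field_simp
  have h4 : B * Real.log n ≤ (|B| + 1) * Real.log n :=
    mul_le_mul_of_nonneg_right (by linarith [le_abs_self B]) (Real.log_natCast_nonneg n)
  exact h4.trans h3

/-- the density hypothesis in the form of a profile -/
lemma profile (hS : ∀ n, MeasurableSet[ℱ n] (S n)) (Q : Finset ℕ) (hQ : ∀ p ∈ Q, p.Prime)
    (hcop : ∀ n, (∃ p ∈ Q, p ∣ n) → S n = ∅)
    (hd : ∀ᵐ ω ∂μ, Tendsto (fun n : ℕ => dens μ ℱ S n ω * Real.log n)
      (atTop ⊓ 𝓟 {n : ℕ | ∀ p ∈ Q, ¬ p ∣ n + 1}) (𝓝 (∏ p ∈ Q, (1 - 1 / (p : ℝ))⁻¹))) :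
    ∀ᵐ ω ∂μ, ∀ ε : ℝ, 0 < ε → ∀ᶠ n : ℕ in atTop,
      |dens μ ℱ S n ω - rhoW (∏ p ∈ Q, p) (n + 1)| ≤ ε * rhoW (∏ p ∈ Q, p) (n + 1) := by
  set W := ∏ p ∈ Q, p with hWdef
  have hW : 0 < W := Finset.prod_pos fun q hq => (hQ q hq).pos
  have hc : ∀ n, Nat.Coprime n W ↔ ∀ p ∈ Q, ¬ p ∣ n := by
    intro n
    rw [hWdef, Nat.coprime_prod_right_iff]
    refine forall₂_congr fun p hp => ?_
    rw [Nat.coprime_comm]
    exact Nat.Prime.coprime_iff_not_dvd (hQ p hp)
  exact dens_profile (μ := μ) hS W hW (fun n hn => hcop n (by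
    rw [hc] at hn
    push Not at hn
    exact hn)) (by
    rw [totient_prod Q hQ]
    simp_rw [hc]
    exact hd)

theorem uniform (hS : ∀ n, MeasurableSet[ℱ n] (S n)) (Q : Finset ℕ) (hQ : ∀ p ∈ Q, p.Prime)
    (hd : ∀ᵐ ω ∂μ, ∀ ε : ℝ, 0 < ε → ∀ᶠ n : ℕ in atTop,
      |dens μ ℱ S n ω - rhoW (∏ p ∈ Q, p) (n + 1)| ≤ ε * rhoW (∏ p ∈ Q, p) (n + 1)) :
    ∀ᵐ ω ∂μ, ∀ C : ℕ, ∀ ε : ℝ, 0 < ε → ∃ H : ℝ, ∃ n₀ : ℕ, ∀ n ≥ n₀, ∀ K : ℕ, H * Real.log n ^ 2 ≤ K → K ≤ n ^ C →
      |Rn S n K ω - Mt Q n K| ≤ ε * Mt Q n K := by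
  set W := ∏ p ∈ Q, p with hWdef
  have hW : 0 < W := Finset.prod_pos fun q hq => (hQ q hq).pos
  have hW' : (0 : ℝ) < W := by exact_mod_cast hW
  filter_upwards [core (μ := μ) hS W hd] with ω hω C ε hε
  set e : ℝ := min (ε / 5) (1 / 2) with he
  have he0 : 0 < e := by rw [he]; positivity
  have he1 : e ≤ 1 / 2 := min_le_right _ _
  have heε : 5 * e ≤ ε := by
    have : e ≤ ε / 5 := min_le_left _ _
    linarith
  obtain ⟨C', hC', N, hN⟩ := hω e he0
  set H : ℝ := (W + 1) * (C + 2) / e + C' * (2 * C + 4) * (C + 2) / e with hH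
  have hH0 : 0 < H := by rw [hH]; positivity
  have hH1 : (W + 1) * (C + 2) / e ≤ H := by
    have : 0 ≤ C' * (2 * C + 4) * (C + 2) / e := by positivity
    linarith
  have hH2 : C' * (2 * C + 4) * (C + 2) / e ≤ H := by
    have : 0 ≤ (W + 1) * (C + 2) / e := by positivity
    linarith
  obtain ⟨n₀, hn₀⟩ := eventually_atTop.1 (((log_big (((W : ℝ) / Nat.totient W) + 1)).and (log_small (C + 2) e he0)).and
    ((eventually_ge_atTop N).and (eventually_ge_atTop 3)))
  refine ⟨H, n₀, fun n hn K hK1 hK2 => ?_⟩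
  obtain ⟨⟨g1, g2⟩, g3, g4⟩ := hn₀ n hn
  have hcW := cQ_ge W hW
  have hL1 : 1 ≤ Real.log n := by linarith
  have hL0 : 0 < Real.log n := by linarith
  have hn0 : 0 < n := by omega
  have hnr : (0 : ℝ) < n := by exact_mod_cast hn0
  have hKpos : (0 : ℝ) < K := lt_of_lt_of_le (by positivity) hK1
  have hK0 : 0 < K := by exact_mod_cast hKpos
  have h1 := hN n g3 K
  have h2 := exp_main Q hQ n K hn0 (by
    have : Real.log n ≤ Real.log ((2 * n + 1 : ℕ) : ℝ) := by
      apply Real.log_le_log hnr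
      exact_mod_cast (show n ≤ 2 * n + 1 by omega)
    rw [← hWdef]
    linarith)
  rw [← hWdef] at h2
  have h3 := Mt_ge Q hQ n K hn0
  have hG := (G_bounds Q hQ n).1
  have h4 := log_val_le C n K g4 hK0 hK2
  have h5 := log_pair C n K g4 hK2
  have h6 : (K : ℝ) / ((C + 2) * Real.log n) ≤ Mt Q n K := by
    refine le_trans ?_ h3
    have hlpos : 0 < Real.log ((2 * K * n + 1 : ℕ) : ℝ) := by
      apply Real.log_pos
      have : 1 < 2 * K * n + 1 := by
        have := Nat.mul_pos (Nat.mul_pos two_pos hK0) hn0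
        omega
      exact_mod_cast this
    calc (K : ℝ) / ((C + 2) * Real.log n) ≤ K / Real.log ((2 * K * n + 1 : ℕ) : ℝ) :=
          div_le_div_of_nonneg_left hKpos.le hlpos h4
      _ = 1 * (K / Real.log ((2 * K * n + 1 : ℕ) : ℝ)) := (one_mul _).symm
      _ ≤ _ := mul_le_mul_of_nonneg_right hG (by positivity)
  set M := Mt Q n K
  set L := Real.log n
  have hC2 : (0 : ℝ) < C + 2 := by positivity
  have h7 : H * L / (C + 2) ≤ M := by
    refine le_trans ?_ h6
    rw [div_le_div_iff₀ hC2 (by positivity)]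
    have : H * L ^ 2 * (C + 2) ≤ K * (C + 2) := mul_le_mul_of_nonneg_right hK1 hC2.le
    nlinarith
  have h8 : (W + 1 : ℝ) ≤ e * M := by
    have k1 : (W + 1) * (C + 2) / e * L / (C + 2) ≤ M := by
      refine le_trans ?_ h7
      gcongr
    have k2 : (W + 1) * (C + 2) / e * L / (C + 2) = (W + 1) * L / e := by field_simp
    rw [k2, div_le_iff₀ he0] at k1
    nlinarith
  have h9 : C' * Real.log (Nat.pair n K) ≤ e * M := by
    have k1 : C' * (2 * C + 4) * (C + 2) / e * L / (C + 2) ≤ M := by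
      refine le_trans ?_ h7
      gcongr
    have k2 : C' * (2 * C + 4) * (C + 2) / e * L / (C + 2) = C' * ((2 * C + 4) * L) / e := by field_simp
    rw [k2, div_le_iff₀ he0] at k1
    have k3 : C' * Real.log (Nat.pair n K) ≤ C' * ((2 * C + 4) * L) := mul_le_mul_of_nonneg_left h5 hC'
    linarith
  have h10 : (K : ℝ) / n ≤ e * M := by
    have k1 : (K : ℝ) / n ≤ e * (K / ((C + 2) * L)) := by
      rw [mul_div_assoc', div_le_div_iff₀ hnr (by positivity)]
      nlinarith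
    exact k1.trans (mul_le_mul_of_nonneg_left h6 he0.le)
  have hM0 : 0 < M := lt_of_lt_of_le (by positivity) h6
  have k1 := abs_le.1 h1
  have k2 := abs_le.1 h2
  have hEn : En W n K = ∑ k ∈ adm n K, rhoW W (2 * k * n + 1) := rfl
  rw [← hEn] at k2
  set E := En W n K
  have k3 : e * E ≤ e * ((1 + 2 * e) * M) := mul_le_mul_of_nonneg_left (by linarith) he0.le
  have k4 : e * (e * M) ≤ 1 / 2 * (e * M) := mul_le_mul_of_nonneg_right he1 (by positivity)
  have k5 : 5 * e * M ≤ ε * M := mul_le_mul_of_nonneg_right heε hM0.le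
  rw [abs_le]
  constructor <;> nlinarith

lemma key_ineq (a L : ℝ) (ha0 : 0 < a) (ha1 : a ≤ 1) (hL0 : 0 < L) :
    (1 + 3 * a / 4) * L ≤ (1 - a / 16) * ((1 + a) * L / (1 + a / 16)) := by
  have h1 : (1 - a / 16) * ((1 + a) * L / (1 + a / 16)) = ((1 - a / 16) * ((1 + a) * L)) / (1 + a / 16) := by ring
  rw [h1, le_div_iff₀ (by positivity)]
  have : 0 ≤ L * (a * (8 - 7 * a)) := by
    have : 0 ≤ 8 - 7 * a := by linarith
    positivity
  nlinarith

/-- the length for the sharp result -/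
noncomputable def Kj (Q : Finset ℕ) (a : ℝ) (n : ℕ) : ℕ := ⌊(1 + a) * Real.log n ^ 2 / G Q n⌋₊

theorem sharp_final (hS : ∀ n, MeasurableSet[ℱ n] (S n)) (Q : Finset ℕ) (hQ : ∀ p ∈ Q, p.Prime)
    (hd : ∀ᵐ ω ∂μ, ∀ ε : ℝ, 0 < ε → ∀ᶠ n : ℕ in atTop,
      |dens μ ℱ S n ω - rhoW (∏ p ∈ Q, p) (n + 1)| ≤ ε * rhoW (∏ p ∈ Q, p) (n + 1)) :
    ∀ᵐ ω ∂μ, ∀ ε : ℝ, 0 < ε → ∀ᶠ n : ℕ in atTop, ∃ k : ℕ, 1 ≤ k ∧ (k : ℝ) ≤ (1 + ε) * Real.log n ^ 2 / G Q n ∧
      ¬ n ∣ k ∧ ω ∈ S (2 * k * n + 1) := by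
  classical
  set W := ∏ p ∈ Q, p with hWdef
  have hW : 0 < W := Finset.prod_pos fun q hq => (hQ q hq).pos
  have h1 : ∀ᵐ ω ∂μ, ∀ j : ℕ, ∀ ε : ℝ, 0 < ε → ∀ᶠ n : ℕ in atTop,
      (1 + ε) * Real.log n ≤ SD μ ℱ S (wt n (Kj Q (1 / (j + 1)) n)) (2 * Kj Q (1 / (j + 1)) n * n + 1) ω →
        0 < Rn S n (Kj Q (1 / (j + 1)) n) ω :=
    ae_all_iff.2 fun j => sharp (μ := μ) hS (Kj Q (1 / (j + 1)))
  filter_upwards [h1, hd] with ω hω hωd ε hε
  obtain ⟨j, hj⟩ := exists_nat_one_div_lt hε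
  set a : ℝ := 1 / (j + 1 : ℝ) with ha
  have ha0 : 0 < a := by rw [ha]; positivity
  have ha1 : a ≤ 1 := by
    rw [ha, div_le_one (by positivity)]
    have : (0 : ℝ) ≤ j := Nat.cast_nonneg j
    linarith
  set e : ℝ := a / 16 with he
  have he0 : 0 < e := by positivity
  obtain ⟨N, hN⟩ := eventually_atTop.1 (hωd e he0)
  set Gm : ℝ := ∏ p ∈ Q, (1 - 1 / (p : ℝ))⁻¹ with hGm
  set B : ℝ := Gm + W + 2 with hB
  have hlog5 : ∀ᶠ n : ℕ in atTop, Real.log (5 * Real.log n ^ 2) ≤ e * Real.log n := by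
    have k1 : Tendsto (fun n : ℕ => Real.log n) atTop atTop :=
      Real.tendsto_log_atTop.comp tendsto_natCast_atTop_atTop
    have k2 := (isLittleO_log_rpow_atTop (r := 1) one_pos).bound (c := e / 4) (by positivity)
    filter_upwards [k1.eventually k2, k1.eventually_ge_atTop 1, k1.eventually_ge_atTop (2 * Real.log 5 / e)] with n g1 g2 g3
    have hL : 0 < Real.log n := by linarith
    rw [Real.rpow_one, Real.norm_of_nonneg (Real.log_nonneg g2), Real.norm_of_nonneg hL.le] at g1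
    rw [Real.log_mul (by norm_num) (by positivity), Real.log_pow]
    rw [div_le_iff₀ he0] at g3
    push_cast
    linarith
  have hsq : ∀ᶠ n : ℕ in atTop, 2 * Real.log n ^ 2 ≤ n := by
    have k2 := (isLittleO_log_rpow_atTop (r := 1 / 2) (by norm_num)).bound (c := 1 / 2) (by norm_num)
    have k3 := tendsto_natCast_atTop_atTop (R := ℝ) |>.eventually k2
    filter_upwards [k3, eventually_ge_atTop 1] with n g1 g2
    have hn0 : (0 : ℝ) ≤ n := Nat.cast_nonneg n
    rw [Real.norm_of_nonneg (Real.log_natCast_nonneg n), Real.norm_of_nonneg (by positivity)] at g1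
    have h5 := pow_le_pow_left₀ (Real.log_natCast_nonneg n) g1 2
    have h6 : (1 / 2 * (n : ℝ) ^ (1 / 2 : ℝ)) ^ 2 = 1 / 4 * n := by
      rw [mul_pow, ← Real.rpow_natCast ((n : ℝ) ^ (1 / 2 : ℝ)), ← Real.rpow_mul hn0]
      norm_num
    rw [h6] at h5
    linarith
  filter_upwards [hω j (a / 2) (by positivity), hlog5, hsq, log_big (((W : ℝ) / Nat.totient W) + 1),
    log_big (4 * B / a), eventually_ge_atTop N, eventually_ge_atTop 3] with n g1 g2 g3 g4 g5 g6 g7
  have hcW := cQ_ge W hW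
  have hn0 : 0 < n := by omega
  have hnr : (0 : ℝ) < n := by exact_mod_cast hn0
  set L := Real.log n with hLdef
  have hL1 : 1 ≤ L := by linarith
  have hL0 : 0 < L := by linarith
  obtain ⟨hG1, hG2⟩ := G_bounds Q hQ n
  rw [← hGm] at hG2
  set K := Kj Q a n with hK
  have hKle : (K : ℝ) ≤ (1 + a) * L ^ 2 / G Q n := Nat.floor_le (by positivity)
  have hKge : (1 + a) * L ^ 2 / G Q n - 1 ≤ K := by
    have := Nat.lt_floor_add_one ((1 + a) * L ^ 2 / G Q n)
    have h : ((⌊(1 + a) * L ^ 2 / G Q n⌋₊ : ℕ) : ℝ) = K := rfl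
    linarith
  have hK2 : (K : ℝ) ≤ 2 * L ^ 2 := by
    refine hKle.trans ((div_le_self (by positivity) hG1).trans ?_)
    have := mul_le_mul_of_nonneg_right (show 1 + a ≤ 2 by linarith) (sq_nonneg L)
    linarith
  -- main inequality
  have hpos : 0 < Rn S n K ω := by
    apply g1
    have k1 := abs_le.1 (SD_near (μ := μ) (ℱ := ℱ) W ω e N hN n K hn0 g6)
    have k2 := abs_le.1 (exp_main Q hQ n K hn0 (by
      have : Real.log n ≤ Real.log ((2 * n + 1 : ℕ) : ℝ) := by
        apply Real.log_le_log hnr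
        exact_mod_cast (show n ≤ 2 * n + 1 by omega)
      rw [← hWdef]
      linarith))
    rw [← hWdef] at k2
    have hEn : En W n K = ∑ k ∈ adm n K, rhoW W (2 * k * n + 1) := rfl
    rw [← hEn] at k2
    have k3 := Mt_ge Q hQ n K hn0
    set D := SD μ ℱ S (wt n K) (2 * K * n + 1) ω
    set E := En W n K
    have k4 : Real.log ((2 * K * n + 1 : ℕ) : ℝ) ≤ (1 + e) * L := by
      have h5 : ((2 * K * n + 1 : ℕ) : ℝ) ≤ 5 * L ^ 2 * n := by
        push_cast
        have : (K : ℝ) * n ≤ 2 * L ^ 2 * n := mul_le_mul_of_nonneg_right hK2 hnr.le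
        have h6 : (1 : ℝ) ≤ L ^ 2 * n := by
          have h7 : (1 : ℝ) ≤ L ^ 2 := one_le_pow₀ hL1
          have h8 : (1 : ℝ) ≤ n := by exact_mod_cast hn0
          nlinarith
        nlinarith
      calc Real.log ((2 * K * n + 1 : ℕ) : ℝ) ≤ Real.log (5 * L ^ 2 * n) :=
            Real.log_le_log (by positivity) h5
        _ = Real.log (5 * L ^ 2) + L := Real.log_mul (by positivity) hnr.ne'
        _ ≤ (1 + e) * L := by linarith
    have k5 : (1 + a) * L / (1 + e) - Gm ≤ Mt Q n K := by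
      refine le_trans ?_ k3
      have hlpos : 0 ≤ Real.log ((2 * K * n + 1 : ℕ) : ℝ) := Real.log_natCast_nonneg _
      rcases hlpos.eq_or_lt with h0 | h0
      · -- then K = 0, impossible
        exfalso
        have h5 : (2 * K * n + 1 : ℕ) = 1 := by
          have h6 : ((2 * K * n + 1 : ℕ) : ℝ) ≤ 1 := by
            by_contra hcon
            push Not at hcon
            exact absurd (Real.log_pos hcon) (by linarith)
          have h7 : (2 * K * n + 1 : ℕ) ≤ 1 := by exact_mod_cast h6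
          omega
        have h6 : K = 0 := by
          by_contra hcon
          have := Nat.mul_pos (Nat.mul_pos two_pos (Nat.pos_of_ne_zero hcon)) hn0
          omega
        rw [h6, Nat.cast_zero] at hKge
        have h7 : (1 + a) * L ^ 2 ≤ G Q n := by
          have : (1 + a) * L ^ 2 / G Q n ≤ 1 := by linarith
          rwa [div_le_one (by linarith)] at this
        have h8 : L ≤ Gm := by nlinarith
        have h9 : 4 * B ≤ a * L := by
          rw [div_le_iff₀ ha0] at g5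
          linarith
        have h10 : a * L ≤ L := by nlinarith
        have h11 : (0 : ℝ) ≤ W := Nat.cast_nonneg W
        linarith
      · have h5 : G Q n * (K / Real.log ((2 * K * n + 1 : ℕ) : ℝ)) ≥ (G Q n * K) / ((1 + e) * L) := by
          rw [mul_div_assoc']
          exact div_le_div_of_nonneg_left (by positivity) h0 k4
        refine le_trans ?_ h5
        have h6 : (1 + a) * L ^ 2 - G Q n ≤ G Q n * K := by
          have := mul_le_mul_of_nonneg_left hKge (show 0 ≤ G Q n by linarith)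
          have h7 : G Q n * ((1 + a) * L ^ 2 / G Q n - 1) = (1 + a) * L ^ 2 - G Q n := by
            field_simp
          linarith
        rw [le_div_iff₀ (by positivity)]
        have h7 : ((1 + a) * L / (1 + e) - Gm) * ((1 + e) * L) = (1 + a) * L ^ 2 - Gm * ((1 + e) * L) := by
          field_simp
        rw [h7]
        have h8 : G Q n ≤ Gm * ((1 + e) * L) := by
          have h9 : 1 ≤ (1 + e) * L := by nlinarith
          have h10 : (0 : ℝ) ≤ Gm := by linarith
          nlinarith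
        linarith
    have k6 : (K : ℝ) / n ≤ 1 := by
      rw [div_le_one hnr]
      linarith
    have k7 : (1 + a) * L / (1 + e) - B ≤ E := by
      rw [hB]
      linarith [k2.1, k2.2]
    have hBpos : 0 < B := by
      have h11 : (0 : ℝ) ≤ W := Nat.cast_nonneg W
      rw [hB]
      linarith
    have k8 : 4 * B ≤ a * L := by
      rw [div_le_iff₀ ha0] at g5
      linarith
    -- (1 - e) (1 + a) / (1 + e) ≥ 1 + 3 a / 4
    have k9 : (1 + 3 * a / 4) * L ≤ (1 - e) * ((1 + a) * L / (1 + e)) := by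
      rw [he]
      exact key_ineq a L ha0 ha1 hL0
    have k10 : (1 - e) * ((1 + a) * L / (1 + e) - B) ≤ (1 - e) * E :=
      mul_le_mul_of_nonneg_left k7 (by rw [he]; linarith)
    have k11 : (1 - e) * B ≤ B := by
      have : 0 ≤ e * B := by positivity
      nlinarith
    have k12 : (1 - e) * E ≤ D := by linarith [k1.1]
    nlinarith
  unfold Rn at hpos
  have h2 : 0 < ((adm n K).filter (fun k => ω ∈ S (2 * k * n + 1))).card := by exact_mod_cast hpos
  obtain ⟨k, hk⟩ := Finset.card_pos.1 h2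
  rw [Finset.mem_filter] at hk
  unfold adm at hk
  rw [Finset.mem_filter, Finset.mem_Ioc] at hk
  obtain ⟨⟨⟨q1, q2⟩, q3⟩, q4⟩ := hk
  refine ⟨k, q1, ?_, q3, q4⟩
  have h3 : (k : ℝ) ≤ K := by exact_mod_cast q2
  refine (h3.trans hKle).trans ?_
  have hG0 : 0 < G Q n := by linarith
  apply div_le_div_of_nonneg_right _ hG0.le
  exact mul_le_mul_of_nonneg_right (by linarith) (sq_nonneg L)

end Pool.Agent.N860.LP
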